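import Pool.Agent.R908.TAbDefs
import Pool.Agent.H914R2.DDefs
import Pool.Agent.Helper11K9.Dens.RelDefs
import Pool.Agent.Helper11K9.Dens.DensDefs

/-!
# Conjecture D for products and exotic relations between Frobenius eigenvalues: definitions
-/

open CategoryTheory AlgebraicGeometry Polynomial

universe u v

namespace Pool.Agent.Helper13ER

open Pool.Agent.H914 Pool.Agent.H914.VarClass Pool.Agent.H914.VarClass.Obj
  Pool.Agent.H914.WeilCohomology Pool.Agent.W534 Pool.Agent.R908 Pool.Agent.Helper11K9.Dens

variable {k : Type u} [Field k] {𝒱 : VarClass k} {ops : CycleOps 𝒱}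

/-- The polynomial `f` is not zero, and its complex roots have the square `w` of the absolute
value. -/
def HasAbsSq (f : ℚ[X]) (w : ℕ) : Prop := f ≠ 0 ∧ ∀ z : ℂ, aeval z f = 0 → ‖z‖ ^ 2 = (w : ℝ)

/-- The operator `f(F)` is zero on the subspace `U`. -/
def VanishesOn {K V : Type*} [Field K] [CharZero K] [AddCommGroup V] [Module K V]
    (F : Module.End K V) (U : Submodule K V) (f : ℚ[X]) : Prop :=
  ∀ x ∈ U, aeval F (f.map (algebraMap ℚ K)) x = 0

section One

variable {W : WeilCohomology.{u, v} ops} {p : ℕ}

/-- The part of degree `i` of the transcendental cohomology of `X`. -/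
def transIn (W : WeilCohomology.{u, v} ops) (X : 𝒱.Obj) (i : ℕ) : Submodule W.K (W.H X) :=
  transcendental W X ⊓ W.gr X i

/-- The class of the cycle `z`. -/
noncomputable def clOf (W : WeilCohomology.{u, v} ops) (X : 𝒱.Obj) (z : X.Cycles) : W.H X := W.cl X z

/-- The pull-back of cohomology classes. -/
noncomputable def pullFn (W : WeilCohomology.{u, v} ops) {X Y : 𝒱.Obj} (f : X ⟶ Y) : W.H Y → W.H X := W.map f

/-- The variety `A` has the known properties of an abelian variety over an algebraic closure of a
finite field with the addition `m`, where the divisor `D` is ample and invariant under Frobenius: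

* `m^* x = pr_1^* x + pr_2^* x` for `x` in `H^1(A)`, and the cohomology is generated by `H^1(A)`;
* Frobenius multiplies the class of `D` by `q`;
* hard Lefschetz holds for `D`;
* the `K`-linear endomorphisms of `H^1(A)` which commute with Frobenius are given by algebraic
  correspondences of degree `0` with coefficients in `K` (Tate). -/
structure IsAbelianOver (Φ : FrobSystem W p) (A : 𝒱.Obj) (m : A.prod A ⟶ A) (D : A.Cycles) :
    Prop where
  add : IsSumOn (W.gr A 1) (pullFn W m) (pullFn W (fst A A)) (pullFn W (snd A A))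
  gen : GeneratedInDegreeOne (W.gr A)
  divisor : A.IsCyc 1 D
  rational : IsScaled (frobAll Φ A) (p ^ Φ.e A) (clOf W A D)
  hard : HardLefschetz W A D
  tate : CommutantSpannedOn (frobAll Φ A) (W.gr A 1) (cycOps W A)

/-- The conjecture D (homological and numerical equivalence coincide) and the conjecture B hold for
`X` and the divisor `D`, which satisfies hard Lefschetz and is rational over the field of definition
of `X` (so that Frobenius multiplies its class by `q`), and in the degrees `i ≤ dim X` all
`K`-linear endomorphisms of the part of degree `i` of the transcendental cohomology of `X` which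
commute with Frobenius are given by `K`-linear combinations of algebraic correspondences (for
example, because Frobenius has simple spectrum on it). -/
structure IsFull (Φ : FrobSystem W p) (X : 𝒱.Obj) (D : X.Cycles) : Prop where
  homEqNum : HomEqNum W X
  divisor : X.IsCyc 1 D
  rational : IsScaled (frobAll Φ X) (p ^ Φ.e X) (clOf W X D)
  hard : HardLefschetz W X D
  lefschetz : LefschetzB W X D
  tate : ∀ i ≤ X.dim, CommutantSpannedOn (frobAll Φ X) (transIn W X i) (cycOps W X)

/-- The operator `f(Frobenius)` is zero on `H^b(X)`. -/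
def KillsDegree (Φ : FrobSystem W p) (X : 𝒱.Obj) (b : ℕ) (f : ℚ[X]) : Prop :=
  VanishesOn (frobAll Φ X) (W.gr X b) f

/-- The operator `f(Frobenius)` is zero on the part of degree `i` of the transcendental cohomology
of `X`. -/
def KillsTrans (Φ : FrobSystem W p) (X : 𝒱.Obj) (i : ℕ) (f : ℚ[X]) : Prop :=
  VanishesOn (frobAll Φ X) (transIn W X i) f

/-- The variety `V` is dominated by `Z`: there are a morphism `g` from `Z` to `V` (for example any
surjective morphism) and a cycle `w` on `Z` whose direct image has the class `1`, the class of the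
fundamental cycle of `V`. -/
def IsDominated (W : WeilCohomology.{u, v} ops) (Z V : 𝒱.Obj) : Prop :=
  ∃ (g : Z ⟶ V) (p : ℕ) (w : Z.Cycles), Z.IsCyc p w ∧ clOf W V (ops.push g w) = 1

/-- The conjecture D holds for `V`, and the conjecture B holds for `V` and each divisor with hard
Lefschetz. -/
def StandardDB (W : WeilCohomology.{u, v} ops) (V : 𝒱.Obj) : Prop :=
  HomEqNum W V ∧ ∀ D, V.IsCyc 1 D → HardLefschetz W V D → LefschetzB W V D

/-- If the conjecture D holds for all products of members of `𝒴`, then the conjectures D and B hold for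
all varieties dominated by products of members of `𝒬` and `𝒴`. -/
def DReduces (W : WeilCohomology.{u, v} ops) (𝒬 𝒴 : Set 𝒱.Obj) : Prop :=
  (∀ Y, IsProductOf 𝒴 Y → HomEqNum W Y) →
    ∀ Z, IsProductOf (𝒬 ∪ 𝒴) Z → ∀ V, IsDominated W Z V → StandardDB W V

end One

/-- The `ℓ`-adic cohomology theories `W ℓ` of a class of varieties over an algebraic closure of the field
with `p` elements, `ℓ` a prime number different from `p`: the field of coefficients is isomorphic to
`ℚ_ℓ`, and the Frobenius endomorphisms `Fr X` of the varieties `X`, relative to the field with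
`p ^ e X` elements, do not depend on `ℓ`. (If `ℓ` is not a prime number different from `p` then
`W ℓ` is any theory.) -/
structure AdicSystem (ops : CycleOps 𝒱) (p : ℕ) where
  /-- the theories -/
  W : ℕ → WeilCohomology.{u, 0} ops
  adic : ∀ (ℓ : ℕ) [Fact ℓ.Prime], ℓ ≠ p → Nonempty ((W ℓ).K ≃+* ℚ_[ℓ])
  /-- the Frobenius endomorphisms -/
  Φ : ∀ ℓ, FrobSystem (W ℓ) p
  /-- the Frobenius endomorphism of `X` -/
  Fr : ∀ X : 𝒱.Obj, X ⟶ X
  /-- the degree of the field of definition of `X` -/
  e : 𝒱.Obj → ℕ
  Fr_eq : ∀ ℓ X, (Φ ℓ).Fr X = Fr X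
  e_eq : ∀ ℓ X, (Φ ℓ).e X = e X

namespace AdicSystem

variable {p : ℕ} (S : AdicSystem ops p)

/-- For all `ℓ` the variety `A` has the known properties of an abelian variety, and the squarefree
polynomial `f 1` with rational coefficients, with complex roots of absolute value `q ^ (1 / 2)`,
`q = p ^ e A`, annihilates Frobenius on `H^1(A)`, for all `ℓ` (so that Frobenius is semisimple on it);
`f i = 1` for `i ≠ 1`. -/
def IsAbelian (A : 𝒱.Obj) (f : ℕ → ℚ[X]) : Prop :=
  (∃ (m : A.prod A ⟶ A) (D : A.Cycles), ∀ ℓ, IsAbelianOver (S.Φ ℓ) A m D) ∧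
    Squarefree (f 1) ∧ HasAbsSq (f 1) (p ^ S.e A) ∧ (∀ ℓ, KillsDegree (S.Φ ℓ) A 1 (f 1)) ∧
      ∀ i, i ≠ 1 → f i = 1

/-- For all `ℓ` the variety `X` satisfies the conjectures B and D and the operators commuting with
Frobenius on its transcendental cohomology are algebraic (`IsFull`), and the squarefree polynomials
`f i`, `i ≤ dim X`, with rational coefficients, with complex roots of absolute value `q ^ (i / 2)`,
`q = p ^ e X`, annihilate Frobenius on the part of degree `i` of the transcendental cohomology, for all
`ℓ` (so that Frobenius is semisimple on it). -/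
def IsFullFor (X : 𝒱.Obj) (f : ℕ → ℚ[X]) : Prop :=
  (∃ D : X.Cycles, ∀ ℓ, IsFull (S.Φ ℓ) X D) ∧
    ∀ i ≤ X.dim, Squarefree (f i) ∧ HasAbsSq (f i) ((p ^ S.e X) ^ i) ∧
      ∀ ℓ, KillsTrans (S.Φ ℓ) X i (f i)

/-- For all `i` and all degrees `b` the nonzero polynomial `Q i b`, with rational coefficients and with
complex roots of absolute value `q ^ (b / 2)`, `q = p ^ e (Y i)`, annihilates Frobenius on the
cohomology of degree `b` of `Y i`, for all `ℓ` (for example it is the characteristic
polynomial). -/
def HasSpectra {I : Type} (Y : I → 𝒱.Obj) (Q : I → ℕ → ℚ[X]) : Prop :=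
  ∀ i b, HasAbsSq (Q i b) ((p ^ S.e (Y i)) ^ b) ∧ ∀ ℓ, KillsDegree (S.Φ ℓ) (Y i) b (Q i b)

/-- The rank of the exotic relations: the maximal number of linearly independent functions on the
roots of the polynomials `P j i` (`i ≤ dim (X j)`) which, together with a function on the roots of
the polynomials `Q i b` (`b ≤ 2 dim (Y i)`), are an exotic multiplicative relation. -/
noncomputable def exoticRank {J I : Type} [Fintype J] [Fintype I] (X : J → 𝒱.Obj)
    (P : J → ℕ → ℚ[X]) (Y : I → 𝒱.Obj) (Q : I → ℕ → ℚ[X]) : ℕ :=
  relativeRank (J := Σ j, Fin ((X j).dim + 1)) (fun x => P x.1 x.2) (fun x => S.e (X x.1))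
    (I := Σ i, Fin (2 * (Y i).dim + 1)) (fun x => Q x.1 x.2) (fun x => S.e (Y x.1))

end AdicSystem

end Pool.Agent.Helper13ER
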