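import Pool.Agent.Helper13ER.One

/-!
# The conjecture D for products and the rank of the exotic relations
-/

set_option autoImplicit false

open CategoryTheory AlgebraicGeometry TensorProduct Polynomial NumberField

universe u v w

namespace Pool.Agent.Helper13ER

open Pool.Agent.H914 Pool.Agent.H914.VarClass Pool.Agent.H914.VarClass.Obj
  Pool.Agent.H914.WeilCohomology Pool.Agent.W534 Pool.Agent.R908 Pool.Agent.Helper11K9.Dens

section Rel

variable {J₀ J₁ : Type} [Fintype J₀] [Fintype J₁]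

/-- The space of the relative exotic relations. -/
lemma relSpace_eq (P : J₀ → ℚ[X]) (e : J₀ → ℕ) (Q : J₁ → ℚ[X]) (e' : J₁ → ℕ) :
    relSpace Sum.inl (Sum.elim P Q) (Sum.elim e e') = relativeSpace P e Q e' := by
  rw [relSpace, exoticSpace, relativeSpace, Submodule.map_span]
  congr 1
  ext f
  constructor
  · rintro ⟨_, ⟨r, hr, rfl⟩, rfl⟩
    refine ⟨fun j => r (Sum.inl j), ⟨fun i => r (Sum.inr i), ?_⟩, rfl⟩
    have h1 : Sum.elim (fun j => r (Sum.inl j)) (fun i => r (Sum.inr i)) = r := by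
      funext x
      cases x <;> rfl
    rw [h1]
    exact hr
  · rintro ⟨r, ⟨s, hs⟩, rfl⟩
    exact ⟨_, ⟨Sum.elim r s, hs, rfl⟩, rfl⟩

/-- All relations are balanced over every field if there is no exotic relation. -/
theorem relBalanced_of_zero {P : J₀ ⊕ J₁ → ℚ[X]} {e w : J₀ ⊕ J₁ → ℕ} (hW : IsWeilFamily P w)
    (he : ∀ j, 0 < e j) (h0 : Module.finrank ℚ (relSpace Sum.inl P e) = 0) (p : ℕ) (K : Type)
    [Field K] [CharZero K] : RelBalanced P e w p K (AlgebraicClosure K) := by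
  classical
  obtain ⟨E, ⟨_, _⟩, hE, -⟩ := exists_E hW
  have hfin := finite_rel hW (e := e) (Sum.inl : J₀ → J₀ ⊕ J₁)
  have hbot : relSpace Sum.inl P e = ⊥ := Submodule.finrank_eq_zero.1 h0
  obtain ⟨τ⟩ : Nonempty (E →+* AlgebraicClosure K) := by
    have : CharZero (AlgebraicClosure K) := inferInstance
    exact ⟨(IsAlgClosed.lift (R := ℚ) (S := E) (M := AlgebraicClosure K) : _ →ₐ[ℚ] _)⟩
  intro l l' hl hl' hrel
  refine perm_rel' hW he hE τ (σ := 1) (fun j z _ => rfl) ?_ l l' hl hl' hrel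
  intro f hf _
  rw [hbot, Submodule.mem_bot] at hf
  exact hf

end Rel

variable {k : Type u} [Field k] {𝒱 : VarClass k} {ops : CycleOps 𝒱} {p : ℕ}

lemma p_pos (S : AdicSystem ops p) : 0 < p := (S.Φ 0).p_pos

variable (S : AdicSystem ops p) {J I : Type} [Fintype J] [Fintype I] {X : J → 𝒱.Obj}
  {P : J → ℕ → ℚ[X]} {Y : I → 𝒱.Obj} {Q : I → ℕ → ℚ[X]}

lemma e_pos (V : 𝒱.Obj) : 0 < S.e V := by
  rw [← S.e_eq 0]
  exact (S.Φ 0).e_pos V

lemma isWeilFamily (hX : ∀ j, S.IsAbelian (X j) (P j) ∨ S.IsFullFor (X j) (P j))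
    (hY : S.HasSpectra Y Q) : IsWeilFamily (polys X P Y Q) (wts X Y p S.e) := by
  have key : ∀ x : JX X, P x.1 x.2 ≠ 0 ∧ ∀ z : ℂ, aeval z (P x.1 x.2) = 0 →
      ‖z‖ ^ 2 = (((p ^ S.e (X x.1)) ^ (x.2 : ℕ) : ℕ) : ℝ) := by
    rintro ⟨j, i⟩
    rcases hX j with ⟨-, -, h1, -, h2⟩ | ⟨-, h1⟩
    · by_cases hi : (i : ℕ) = 1
      · dsimp only
        rw [hi, pow_one]
        exact h1
      · dsimp only
        rw [h2 i hi]
        refine ⟨one_ne_zero, fun z hz => ?_⟩
        rw [map_one] at hz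
        exact absurd hz one_ne_zero
    · have h2 := (h1 i (Nat.lt_succ_iff.1 i.2)).2
      exact h2.1
  refine ⟨?_, ?_, ?_⟩
  · rintro (x | ⟨i, b⟩)
    · exact (key x).1
    · exact (hY i b).1.1
  · rintro (x | x)
    · exact pow_pos (pow_pos (p_pos S) _) _
    · exact pow_pos (pow_pos (p_pos S) _) _
  · rintro (x | ⟨i, b⟩) z hz
    · exact (key x).2 z hz
    · exact (hY i b).1.2 z hz

lemma isKind (hX : ∀ j, S.IsAbelian (X j) (P j) ∨ S.IsFullFor (X j) (P j)) (ℓ : ℕ) (j : J) :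
    IsKind (S.Φ ℓ) (X j) (P j) := by
  rcases hX j with ⟨⟨m, D, hA⟩, h1, -, h2, h3⟩ | ⟨⟨D, hD⟩, h1⟩
  · exact Or.inl ⟨m, D, hA ℓ, h1, h2 ℓ, h3⟩
  · exact Or.inr ⟨D, hD ℓ, fun i hi => ⟨(h1 i hi).1, (h1 i hi).2.2 ℓ⟩⟩

/-- For each single `ℓ` balanced relations are sufficient. -/
theorem dReduces_single (hX : ∀ j, S.IsAbelian (X j) (P j) ∨ S.IsFullFor (X j) (P j))
    (hY : S.HasSpectra Y Q) (ℓ : ℕ)
    (h : RelBalanced (polys X P Y Q) (degs X Y S.e) (wts X Y p S.e) p (S.W ℓ).K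
      (AlgebraicClosure (S.W ℓ).K)) :
    DReduces (S.W ℓ) (Set.range X) (Set.range Y) := by
  have he : (S.Φ ℓ).e = S.e := funext (S.e_eq ℓ)
  refine dReduces_of_relBalanced (Φ := S.Φ ℓ) (isKind S hX ℓ) (fun i b => (hY i b).2 ℓ) ?_
  rw [he]
  exact h

/-- **The conjecture D for products, for many primes.** -/
theorem main (hX : ∀ j, S.IsAbelian (X j) (P j) ∨ S.IsFullFor (X j) (P j))
    (hY : S.HasSpectra Y Q) :
    HasLowerDensity {ℓ | DReduces (S.W ℓ) (Set.range X) (Set.range Y)}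
        ((1 / 2 : ℝ) ^ S.exoticRank X P Y Q) ∧
      (S.exoticRank X P Y Q = 0 →
        ∀ ℓ, DReduces (S.W ℓ) (Set.range X) (Set.range Y)) := by
  classical
  have hW := isWeilFamily S hX hY
  have he : ∀ j, 0 < degs X Y S.e j := by
    rintro (x | x)
    · exact e_pos S _
    · exact e_pos S _
  have hrank : Module.finrank ℚ (relSpace Sum.inl (polys X P Y Q) (degs X Y S.e)) =
      S.exoticRank X P Y Q := by
    rw [AdicSystem.exoticRank, relativeRank, polys, degs, relSpace_eq]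
  constructor
  · rw [← hrank]
    exact density_rel hW he p (p_pos S) (fun ℓ => (S.W ℓ).K) S.adic _
      (fun ℓ _ _ h => dReduces_single S hX hY ℓ h)
  · intro h0 ℓ
    exact dReduces_single S hX hY ℓ (relBalanced_of_zero hW he (hrank.trans h0) p _)

end Pool.Agent.Helper13ER
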