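import Pool.Agent.Helper13ER.Rich
import Pool.Agent.R908.MainK

/-!
# The conjecture D for products, for one cohomology theory with balanced relations
-/

set_option autoImplicit false

open CategoryTheory AlgebraicGeometry TensorProduct Polynomial

universe u v w

namespace Pool.Agent.Helper13ER

open Pool.Agent.H914 Pool.Agent.H914.VarClass Pool.Agent.H914.VarClass.Obj
  Pool.Agent.H914.WeilCohomology Pool.Agent.W534 Pool.Agent.R908

variable {k : Type u} [Field k] {𝒱 : VarClass k} {ops : CycleOps 𝒱}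
  {W : WeilCohomology.{u, v} ops} {p : ℕ} {Φ : FrobSystem W p} {X : 𝒱.Obj} {D : X.Cycles}

lemma piece_change {e : W.H X →ₗ[W.K] W.H X} {P P' : W.K[X]} {c : W.K} {δ : ℤ}
    {θ : W.H X →ₗ[W.K] W.H X} (h : IsPiece Φ X e P c δ θ) (hsq : Squarefree P')
    (hP : aeval (fr Φ X) P' ∘ₗ e = 0) : IsPiece Φ X e P' c δ θ :=
  { h with
    sqf := hsq
    poly := hP }

lemma piece_zero {c : W.K} (hc : c ≠ 0) : IsPiece Φ X 0 1 c 0 0 where
  mem := Submodule.zero_mem _
  idem := by rw [LinearMap.comp_zero]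
  comm := by rw [LinearMap.comp_zero, LinearMap.zero_comp]
  sqf := squarefree_one
  poly := by rw [LinearMap.comp_zero]
  tate := by
    intro φ h1 _ _
    rw [← h1, LinearMap.comp_zero]
    exact Submodule.zero_mem _
  θ_mem := Submodule.zero_mem _
  c_ne := hc
  θ_eq := by
    intro x y
    rw [LinearMap.zero_apply, LinearMap.zero_apply, LinearMap.zero_apply, map_zero, zero_mul,
      map_zero, mul_zero]
  nondeg := by
    intro x _
    rfl

section Abelian

variable {L : Type v} [Field L] [Algebra W.K L] {A : 𝒱.Obj} {m : A.prod A ⟶ A} {E : A.Cycles}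

/-- The identity of an abelian variety factors through the powers of its first cohomology. -/
theorem id_mem_abelian (hA : IsAbelianOverFinite Φ A m E) {C : Mot (baseW W L) → Prop}
    (hC : ∀ A B : Mot (baseW W L), C A → C B → C (A.tensor B))
    (hAlg : ∀ B : Mot (baseW W L), B.Alg → C B) {π : ℕ → (W.H A →ₗ[W.K] W.H A)}
    (hπ : IsProjs W A π) (hK : ∀ i, π i ∈ KOp W A A 0)
    (h1 : upW L (π 1) ∈ RetOp (baseW W L) C A A) :
    LinearMap.id ∈ RetOp (baseW W L) C A A := by
  by_cases hone : (1 : W.H A) = 0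
  · have h0 : (LinearMap.id : W.H A →ₗ[W.K] W.H A) = 0 := by
      apply LinearMap.ext
      intro x
      calc (LinearMap.id : W.H A →ₗ[W.K] W.H A) x = 1 * x := by rw [one_mul]; rfl
        _ = 0 := by rw [hone, zero_mul]
    rw [← upW_id (L := L) A, h0]
    have h2 : upW L (0 : W.H A →ₗ[W.K] W.H A) = 0 := LinearMap.baseChange_zero
    rw [h2]
    exact Submodule.zero_mem _
  obtain ⟨c, hc, hc1⟩ := exists_point hA hone
  refine id_mem_retOp (isAbelianLike_base hA.abelianLike) (isProjs_base hπ)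
    (fun i => upW_mem (hK i)) hC ?_ h1
  have hidem : upW L (π 0) ∘ₗ upW L (π 0) = upW L (π 0) := by
    rw [← upW_comp]
    congr 1
    apply gr_ext (W.isInternal A)
    intro j x hx
    rw [LinearMap.comp_apply]
    by_cases h : 0 = j
    · subst h
      rw [hπ.self hx, hπ.self hx]
    · rw [hπ.ne hx h, map_zero]
  refine RetOp.self (B := (⟨A, upW L (π 0), upW_mem (hK 0), hidem⟩ : Mot (baseW W L)))
    (hAlg _ ?_)
  refine ⟨1, fun _ => ((1 : L) ⊗ₜ[W.K] c : L ⊗[W.K] W.H A),
    fun _ => (1 : (baseW W L).H A), fun _ => A.dim,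
    fun _ => one_tmul_span hc, fun x => ?_⟩
  rw [Finset.univ_unique, Finset.sum_singleton]
  refine projs_zero_alg (W := baseW W L) (isProjs_base hπ) (one_tmul_span hc) ?_ x
  have h4 : formBase L (W.tr A) ((1 : L) ⊗ₜ[W.K] c) = 1 * algebraMap W.K L (W.tr A c) :=
    formBase_tmul _ _ _
  rw [hc1, map_one, mul_one] at h4
  exact h4

end Abelian

/-- The variety `X` is an abelian variety, with the squarefree polynomial `f 1` of Frobenius on
`H^1(X)`, or `IsFull`, with the squarefree polynomials `f i` of Frobenius on the transcendental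
cohomology of degree `i ≤ dim X`. -/
def IsKind (Φ : FrobSystem W p) (X : 𝒱.Obj) (f : ℕ → ℚ[X]) : Prop :=
  (∃ (m : X.prod X ⟶ X) (D : X.Cycles), IsAbelianOver Φ X m D ∧ Squarefree (f 1) ∧
    (∀ x ∈ W.gr X 1, aeval (frobAll Φ X) ((f 1).map (algebraMap ℚ W.K)) x = 0) ∧
      ∀ i, i ≠ 1 → f i = 1) ∨
  ∃ D : X.Cycles, IsFull Φ X D ∧ ∀ i ≤ X.dim, Squarefree (f i) ∧
    ∀ x ∈ transIn W X i, aeval (frobAll Φ X) ((f i).map (algebraMap ℚ W.K)) x = 0

lemma squarefree_mapQ {K : Type*} [Field K] [CharZero K] {f : ℚ[X]} (h : Squarefree f) :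
    Squarefree (f.map (algebraMap ℚ K)) :=
  (((PerfectField.separable_iff_squarefree).2 h).map (f := algebraMap ℚ K)).squarefree

/-- The properties of abelian varieties. -/
lemma isAbelianOverFinite_of {A : 𝒱.Obj} {m : A.prod A ⟶ A} {E : A.Cycles}
    (h : IsAbelianOver Φ A m E) {f : ℚ[X]} (hsq : Squarefree f)
    (hf : ∀ x ∈ W.gr A 1, aeval (frobAll Φ A) (f.map (algebraMap ℚ W.K)) x = 0) :
    IsAbelianOverFinite Φ A m E where
  abelianLike := ⟨h.add, h.gen⟩
  divisor := h.divisor
  rational := h.rational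
  lefschetz := h.hard
  semisimple := ⟨_, squarefree_mapQ hsq, hf⟩
  tate := h.tate

/-- The pieces of a variety. -/
theorem exists_pieces {f : ℕ → ℚ[X]} (h : IsKind Φ X f) :
    ∃ (e : Fin (X.dim + 1) → (W.H X →ₗ[W.K] W.H X)) (δ : Fin (X.dim + 1) → ℤ)
      (θ : Fin (X.dim + 1) → (W.H X →ₗ[W.K] W.H X)),
      (∀ i, IsPiece Φ X (e i) ((f i).map (algebraMap ℚ W.K))
        (((p : W.K) ^ Φ.e X) ^ (i : ℕ)) (δ i) (θ i)) ∧
      ∀ (L : Type v) [Field L] [Algebra W.K L] (C : Mot (baseW W L) → Prop),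
        (∀ A B : Mot (baseW W L), C A → C B → C (A.tensor B)) →
        (∀ B : Mot (baseW W L), B.Alg → C B) →
        (∀ i, upW L (e i) ∈ RetOp (baseW W L) C X X) →
          LinearMap.id ∈ RetOp (baseW W L) C X X := by
  classical
  have hpne : ((p : W.K) ^ Φ.e X) ≠ 0 := pow_ne_zero _ (cast_p_ne Φ)
  rcases h with ⟨m, D, hA', hsq, hkill, hf⟩ | ⟨D, hX, hf⟩
  · have hA := isAbelianOverFinite_of hA' hsq hkill
    obtain ⟨π, hπ, hK⟩ := exists_projs hA.abelianLike
    refine ⟨fun i => if (i : ℕ) = 1 then π 1 else 0,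
      fun i => if (i : ℕ) = 1 then ((X.dim - 1 : ℕ) : ℤ) else 0,
      fun i => if (i : ℕ) = 1 then lefP W X D (X.dim - 1) else 0, ?_, ?_⟩
    · intro i
      beta_reduce
      by_cases hi : (i : ℕ) = 1
      · rw [if_pos hi, if_pos hi, if_pos hi, hi, pow_one]
        refine piece_change (isPiece_one hA hπ hK) (squarefree_mapQ hsq) ?_
        apply gr_ext (W.isInternal X)
        intro j x hx
        rw [LinearMap.comp_apply]
        by_cases hj : 1 = j
        · subst hj
          rw [hπ.self hx]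
          exact hkill x hx
        · rw [hπ.ne hx hj, map_zero, LinearMap.zero_apply]
      · rw [if_neg hi, if_neg hi, if_neg hi, hf _ hi, Polynomial.map_one]
        exact piece_zero (pow_ne_zero _ hpne)
    · intro L _ _ C hC hAlg hp
      refine id_mem_abelian hA hC hAlg hπ hK ?_
      by_cases hd : 1 ≤ X.dim
      · have h1 := hp ⟨1, by omega⟩
        beta_reduce at h1
        rw [if_pos rfl] at h1
        exact h1
      · have h0 : π 1 = 0 := by
          apply gr_ext (W.isInternal X)
          intro j x hx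
          by_cases hj : 1 = j
          · subst hj
            rw [W.gr_eq_bot X 1 (by omega), Submodule.mem_bot] at hx
            rw [hx, map_zero, map_zero]
          · rw [hπ.ne hx hj, LinearMap.zero_apply]
        rw [h0]
        have h2 : upW L (0 : W.H X →ₗ[W.K] W.H X) = 0 := LinearMap.baseChange_zero
        rw [h2]
        exact Submodule.zero_mem _
  · obtain ⟨s⟩ := exists_tSplit hX.homEqNum
    refine ⟨fun i => eI s i, fun i => ((X.dim - i : ℕ) : ℤ), fun i => lefP W X D (X.dim - i),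
      fun i => ?_, fun L _ _ C hC hAlg hp => ?_⟩
    · exact isPiece_in s hX (Nat.lt_succ_iff.1 i.2) (squarefree_mapQ (hf i
        (Nat.lt_succ_iff.1 i.2)).1) (hf i (Nat.lt_succ_iff.1 i.2)).2
    · exact id_mem_full s hX hAlg (fun i hi => hp ⟨i, by omega⟩)

/-- The roots of a squarefree polynomial. -/
lemma exists_isRoots {L : Type v} [Field L] [Algebra W.K L] [IsAlgClosed L] {P : W.K[X]}
    (h : Squarefree P) : ∃ R : Finset L, IsRoots P R := by
  classical
  have hP0 : P ≠ 0 := h.ne_zero
  have hPL : P.map (algebraMap W.K L) ≠ 0 :=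
    (Polynomial.map_ne_zero_iff (algebraMap W.K L).injective).2 hP0
  have hsep : (P.map (algebraMap W.K L)).Separable :=
    ((PerfectField.separable_iff_squarefree).2 h).map
  refine ⟨(P.map (algebraMap W.K L)).roots.toFinset, ?_, ?_⟩
  · intro a
    rw [Multiset.mem_toFinset, mem_roots hPL, IsRoot.def, eval_map_algebraMap]
  · refine ⟨(P.map (algebraMap W.K L)).leadingCoeff, leadingCoeff_ne_zero.2 hPL, ?_⟩
    have h1 := (IsAlgClosed.splits (P.map (algebraMap W.K L))).eq_prod_roots
    have h2 : (Multiset.map (fun a => Polynomial.X - C a) (P.map (algebraMap W.K L)).roots).prod =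
        ∏ j ∈ (P.map (algebraMap W.K L)).roots.toFinset, (Polynomial.X - C j) := by
      rw [Finset.prod, Multiset.toFinset_val, (nodup_roots hsep).dedup]
    conv_lhs => rw [h1]
    rw [h2]

end Pool.Agent.Helper13ER
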