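import Pool.Agent.Helper13ER.Main
import Pool.Agent.Helper11K9.Dens.DensA

/-!
# The conjecture D for products, for one cohomology theory: the relations between polynomials
-/

set_option autoImplicit false

open CategoryTheory AlgebraicGeometry TensorProduct Polynomial

universe u v w

namespace Pool.Agent.Helper13ER

open Pool.Agent.H914 Pool.Agent.H914.VarClass Pool.Agent.H914.VarClass.Obj
  Pool.Agent.H914.WeilCohomology Pool.Agent.W534 Pool.Agent.R908 Pool.Agent.Helper11K9.Dens

variable {k : Type u} [Field k] {𝒱 : VarClass k} {ops : CycleOps 𝒱}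
  {W : WeilCohomology.{u, v} ops} {p : ℕ} {Φ : FrobSystem W p}

lemma dominates_of {Z V : 𝒱.Obj} (h : IsDominated W Z V) : Dominates W Z V := by
  obtain ⟨g, q, w, h1, h3⟩ := h
  refine ⟨g, q, w, 1, h1, one_ne_zero, ?_⟩
  rw [one_smul, ← W.cl_push]
  exact h3

/-- The eigenvalues of Frobenius are roots of the polynomials of the degrees. -/
lemma root_of_minpoly {L : Type v} [Field L] [Algebra W.K L] [CharZero L] {Y : 𝒱.Obj}
    {Q : ℕ → ℚ[X]}
    (hQ : ∀ b, ∀ x ∈ W.gr Y b, aeval (frobAll Φ Y) ((Q b).map (algebraMap ℚ W.K)) x = 0) {a : L}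
    (ha : aeval a (minpoly W.K (fr Φ Y)) = 0) :
    ∃ b : Fin (2 * Y.dim + 1), aeval a (Q b) = 0 := by
  classical
  set f : W.K[X] := ∏ b ∈ Finset.range (2 * Y.dim + 1), (Q b).map (algebraMap ℚ W.K) with hf
  have h0 : aeval (fr Φ Y) f = 0 := by
    apply gr_ext (W.isInternal Y)
    intro j x hx
    rw [LinearMap.zero_apply]
    by_cases hj : j < 2 * Y.dim + 1
    · have h1 : f = (∏ b ∈ (Finset.range (2 * Y.dim + 1)).erase j,
          (Q b).map (algebraMap ℚ W.K)) * (Q j).map (algebraMap ℚ W.K) := by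
        rw [hf, Finset.prod_erase_mul _ _ (Finset.mem_range.2 hj)]
      rw [h1, map_mul, Module.End.mul_apply]
      have h2 : aeval (fr Φ Y) ((Q j).map (algebraMap ℚ W.K)) x = 0 := hQ j x hx
      rw [h2, map_zero]
    · rw [W.gr_eq_bot Y j (by omega), Submodule.mem_bot] at hx
      rw [hx, map_zero]
  obtain ⟨g, hg⟩ := minpoly.dvd W.K _ h0
  have h1 : aeval a f = 0 := by rw [hg, map_mul, ha, zero_mul]
  rw [hf, map_prod, Finset.prod_eq_zero_iff] at h1
  obtain ⟨b, hb, h2⟩ := h1
  refine ⟨⟨b, Finset.mem_range.1 hb⟩, ?_⟩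
  rwa [aeval_map_algebraMap] at h2

section

variable {J I : Type} (X : J → 𝒱.Obj) (P : J → ℕ → ℚ[X]) (Y : I → 𝒱.Obj) (Q : I → ℕ → ℚ[X])

/-- The pieces of the varieties `X j`. -/
abbrev JX : Type := Σ j, Fin ((X j).dim + 1)

/-- The degrees of the varieties `Y i`. -/
abbrev JY : Type := Σ i, Fin (2 * (Y i).dim + 1)

/-- All polynomials. -/
noncomputable abbrev polys : JX X ⊕ JY Y → ℚ[X] :=
  Sum.elim (fun x => P x.1 x.2) (fun x => Q x.1 x.2)

/-- The degrees of the finite fields. -/
abbrev degs (e : 𝒱.Obj → ℕ) : JX X ⊕ JY Y → ℕ :=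
  Sum.elim (fun x => e (X x.1)) (fun x => e (Y x.1))

/-- The squares of the absolute values. -/
abbrev wts (p : ℕ) (e : 𝒱.Obj → ℕ) : JX X ⊕ JY Y → ℕ :=
  Sum.elim (fun x => (p ^ e (X x.1)) ^ (x.2 : ℕ)) (fun x => (p ^ e (Y x.1)) ^ (x.2 : ℕ))

variable {X P Y Q}

/-- **The conjecture D for products, if the relations are balanced.** -/
theorem dReduces_of_relBalanced (hX : ∀ j, IsKind Φ (X j) (P j))
    (hQ : ∀ i b, ∀ x ∈ W.gr (Y i) b,
      aeval (frobAll Φ (Y i)) ((Q i b).map (algebraMap ℚ W.K)) x = 0)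
    (hbal : RelBalanced (polys X P Y Q) (degs X Y Φ.e) (wts X Y p Φ.e) p W.K
      (AlgebraicClosure W.K)) :
    DReduces W (Set.range X) (Set.range Y) := by
  classical
  intro hY
  suffices key : ∀ Z, IsProductOf (Set.range X ∪ Set.range Y) Z → HomEqNum W Z by
    intro Z hZ V hV
    exact dominated_of_products key Z hZ V (dominates_of hV)
  intro Z hZ
  choose e δ θ hpc hid using fun j => exists_pieces (hX j)
  set E : JX X → PieceData Φ := fun x => ⟨X x.1, e x.1 x.2,
    (P x.1 x.2).map (algebraMap ℚ W.K), ((p : W.K) ^ Φ.e (X x.1)) ^ (x.2 : ℕ), δ x.1 x.2,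
    θ x.1 x.2, hpc x.1 x.2⟩ with hE
  choose R hR using fun x : JX X => exists_isRoots (L := AlgebraicClosure W.K) (E x).h.sqf
  have hchar : CharZero (AlgebraicClosure W.K) := inferInstance
  have hbalD : Balanced E (AlgebraicClosure W.K) (Set.range Y) := by
    intro l l' hl hl' hrel
    -- the indices of the eigenvalues on the `Y i`
    obtain ⟨l'', h1, h2⟩ : ∃ l'' : List (JY Y × AlgebraicClosure W.K),
        l''.map (fun x => (x.2, Φ.e (Y x.1.1))) = l'.map (fun y => (y.2, Φ.e y.1)) ∧
          ∀ x ∈ l'', aeval x.2 (Q x.1.1 x.1.2) = 0 := by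
      clear hrel
      induction l' with
      | nil => exact ⟨[], rfl, fun x hx => absurd hx List.not_mem_nil⟩
      | cons y l' ih =>
        obtain ⟨l'', h1, h2⟩ := ih (fun z hz => hl' z (List.mem_cons_of_mem _ hz))
        obtain ⟨⟨i, hi⟩, h3⟩ := hl' y List.mem_cons_self
        obtain ⟨y1, y2⟩ := y
        dsimp only at hi h3
        subst hi
        obtain ⟨b, hb⟩ := root_of_minpoly (hQ i) h3
        refine ⟨(⟨i, b⟩, y2) :: l'', ?_, ?_⟩
        · rw [List.map_cons, List.map_cons, h1]
        · intro x hx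
          rcases List.mem_cons.1 hx with rfl | hx
          · exact hb
          · exact h2 x hx
    rw [← h1] at hrel
    obtain ⟨N, M, hN, h3, h4⟩ := hrel
    have h5 := hbal l l'' (fun x hx => by
      have h6 := hl x hx
      change aeval x.2 ((P x.1.1 x.1.2).map (algebraMap ℚ W.K)) = 0 at h6
      rwa [aeval_map_algebraMap] at h6) h2
      ⟨N, M, hN, fun x hx => h3 (x.2, Φ.e (X x.1.1)) (List.mem_append_left _
        (List.mem_map_of_mem (f := fun x => (x.2, Φ.e (E x.1).V)) hx)),
        fun x hx => h3 (x.2, Φ.e (Y x.1.1)) (List.mem_append_right _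
          (List.mem_map_of_mem (f := fun x => (x.2, Φ.e (Y x.1.1))) hx)), by
        rw [List.map_append, List.prod_append, List.map_map, List.map_map] at h4
        exact h4⟩
    have h6 : (l.map fun x => (x.1, minpoly W.K (algebraMap W.K (AlgebraicClosure W.K)
        (E x.1).c / x.2))) = l.map fun x => (x.1, minpoly W.K
          ((wts X Y p Φ.e (Sum.inl x.1) : AlgebraicClosure W.K) / x.2)) := by
      apply List.map_congr_left
      intro x _
      have h7 : algebraMap W.K (AlgebraicClosure W.K) (E x.1).c =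
          (wts X Y p Φ.e (Sum.inl x.1) : AlgebraicClosure W.K) := by
        change algebraMap W.K (AlgebraicClosure W.K)
          (((p : W.K) ^ Φ.e (X x.1.1)) ^ (x.1.2 : ℕ)) =
            (((p ^ Φ.e (X x.1.1)) ^ (x.1.2 : ℕ) : ℕ) : AlgebraicClosure W.K)
        rw [map_pow, map_pow, map_natCast]
        push_cast
        rfl
      rw [h7]
    rw [h6]
    exact h5
  -- the conjecture D for the products
  apply homEqNum_base (L := AlgebraicClosure W.K)
  refine RetOp.homEqNum (P := WCls E hR (Set.range Y)) (fun B hB =>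
    WCls.num hbalD (fun Y hY' => homEqNum_up (hY Y hY')) B hB) ?_
  induction hZ with
  | base hZ =>
    rcases hZ with ⟨j, rfl⟩ | hZ
    · refine hid j (AlgebraicClosure W.K) (WCls E hR (Set.range Y)) WCls.tensor
        (fun B hB => WCls.alg hB) (fun i => ?_)
      have h1 := (E ⟨j, i⟩).h.sum_ep (hR ⟨j, i⟩)
      change upW (AlgebraicClosure W.K) (e j i) = _ at h1
      rw [h1]
      refine Submodule.sum_mem _ (fun b hb => ?_)
      exact RetOp.self (B := letD E hR (⟨j, i⟩, b)) (WCls.letter hb)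
    · exact id_mem_other hZ
  | prod _ _ h1 h2 =>
    have h3 := RetOp.ext WCls.tensor h1 h2
    rwa [extHom_id] at h3

end

end Pool.Agent.Helper13ER
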