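import Pool.Agent.Helper13ER.Defs
import Pool.Agent.R908.RatD

/-!
# The transcendental cohomology of a variety with the conjectures B and D as a sum of pieces
-/

set_option autoImplicit false

open CategoryTheory AlgebraicGeometry TensorProduct Polynomial

universe u v w

namespace Pool.Agent.Helper13ER

open Pool.Agent.H914 Pool.Agent.H914.VarClass Pool.Agent.H914.VarClass.Obj
  Pool.Agent.H914.WeilCohomology Pool.Agent.W534 Pool.Agent.R908

variable {k : Type u} [Field k] {𝒱 : VarClass k} {ops : CycleOps 𝒱}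
  {W : WeilCohomology.{u, v} ops} {p : ℕ} {Φ : FrobSystem W p} {X : 𝒱.Obj} {D : X.Cycles}

/-- Operators preserving the degrees commute with the projectors. -/
lemma proj_comm {φ : Module.End W.K (W.H X)} (hφ : ∀ i, ∀ a ∈ W.gr X i, φ a ∈ W.gr X i) (i : ℕ)
    (x : W.H X) : φ (proj (W.isInternal X) i x) = proj (W.isInternal X) i (φ x) := by
  have h1 : φ ∘ₗ proj (W.isInternal X) i = proj (W.isInternal X) i ∘ₗ φ := by
    apply gr_ext (W.isInternal X)
    intro j a ha
    rw [LinearMap.comp_apply, LinearMap.comp_apply]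
    by_cases hij : j = i
    · subst hij
      rw [proj_same _ ha, proj_same _ (hφ _ a ha)]
    · rw [proj_ne _ ha hij, proj_ne _ (hφ _ a ha) hij, map_zero]
  exact congrArg (fun F => F x) h1

lemma kop_gr {φ : Module.End W.K (W.H X)} (hφ : φ ∈ KOp W X X 0) (i : ℕ) :
    ∀ a ∈ W.gr X i, φ a ∈ W.gr X i := by
  intro a ha
  have h1 := KOp.isHom hφ (i : ℤ) a (by rw [grZ_natCast]; exact ha)
  rw [show ((i : ℤ) + 2 * 0) = (i : ℤ) by ring, grZ_natCast] at h1
  exact h1

lemma proj_kop (h : IsFull Φ X D) (i : ℕ) : proj (W.isInternal X) i ∈ KOp W X X 0 := by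
  obtain ⟨Λ, hΛ, hLam⟩ := lefschetzB_iff_rop.1 h.lefschetz
  exact KOp.ofRop (rop_opAlg.proj_mem (W.isInternal X) W_hbd (rop_mulLeft h.divisor) h.hard hΛ
    hLam i)

/-- The projector to the part of degree `i` of the transcendental cohomology. -/
noncomputable def eI (s : TSplit W X) (i : ℕ) : W.H X →ₗ[W.K] W.H X :=
  proj (W.isInternal X) i ∘ₗ s.eT

variable (s : TSplit W X)

lemma eI_mem (h : IsFull Φ X D) (i : ℕ) : eI s i ∈ KOp W X X 0 :=
  KOp.cast (KOp.comp (proj_kop h i) (RatOp.mem s.eT_mem)) (add_zero 0)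

lemma eI_trans (i : ℕ) (x : W.H X) : eI s i x ∈ transIn W X i :=
  ⟨proj_trans i (s.mem_T x), proj_mem _ i _⟩

lemma eI_fix {i : ℕ} {x : W.H X} (hx : x ∈ transIn W X i) : eI s i x = x := by
  rw [eI, LinearMap.comp_apply, s.fix x hx.1, proj_same _ hx.2]

lemma eI_idem (i : ℕ) : eI s i ∘ₗ eI s i = eI s i := by
  apply LinearMap.ext
  intro x
  rw [LinearMap.comp_apply]
  exact eI_fix s (eI_trans s i x)

lemma eI_comm {φ : Module.End W.K (W.H X)} (hφ : φ ∈ KOp W X X 0) (i : ℕ) :
    φ ∘ₗ eI s i = eI s i ∘ₗ φ := by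
  apply LinearMap.ext
  intro x
  have h1 := congrArg (fun F => F x) (s.comm hφ)
  beta_reduce at h1
  rw [LinearMap.comp_apply, LinearMap.comp_apply] at h1
  rw [LinearMap.comp_apply, eI, LinearMap.comp_apply, LinearMap.comp_apply, LinearMap.comp_apply,
    proj_comm (kop_gr hφ), h1]

lemma lef_trans (hD : X.IsCyc 1 D) (c : ℕ) {i : ℕ} {x : W.H X} (hx : x ∈ transIn W X i) :
    lefP W X D c x ∈ transIn W X (i + 2 * c) := by
  refine ⟨KOp.trans (lefP_mem hD c) hx.1, ?_⟩
  have h1 := KOp.isHom (lefP_mem (W := W) hD c) (i : ℤ) x (by rw [grZ_natCast]; exact hx.2)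
  rw [show ((i : ℤ) + 2 * (c : ℤ)) = ((i + 2 * c : ℕ) : ℤ) by push_cast; ring, grZ_natCast] at h1
  exact h1

/-- The part of an element outside of the transcendental part. -/
lemma sub_alg (x : W.H X) : x - s.eT x = ∑ j, s.eA j x := by
  have h2 := congrArg (fun F => F x) s.sum
  beta_reduce at h2
  rw [LinearMap.add_apply, LinearMap.sum_apply, LinearMap.id_apply] at h2
  rw [sub_eq_iff_eq_add]
  exact h2.symm

lemma eT_lef_sub (hD : X.IsCyc 1 D) (c : ℕ) (x : W.H X) :
    s.eT (lefP W X D c (x - s.eT x)) = 0 := by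
  rw [sub_alg s x, map_sum, map_sum]
  apply Finset.sum_eq_zero
  intro j _
  obtain ⟨n, a, a', l, l', ha, ha', he⟩ := s.eA_alg j
  rw [he, map_sum, map_sum]
  apply Finset.sum_eq_zero
  intro i _
  rw [map_smul, map_smul]
  have h1 := KOp.map_span (lefP_mem (W := W) hD c) (alg_mem_span (ha' i))
  rw [show ((l' : ℤ) + (c : ℤ)) = ((l' + c : ℕ) : ℤ) by push_cast; ring, spanCycles_eq] at h1
  rw [s.kill_span h1, smul_zero]

/-- Every transcendental class of degree `2 n - i` comes from a transcendental class of degree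
`i`. -/
lemma lef_surj (h : IsFull Φ X D) {i : ℕ} (hi : i ≤ X.dim) {t : W.H X}
    (ht : t ∈ transIn W X (2 * X.dim - i)) :
    ∃ b ∈ transIn W X i, lefP W X D (X.dim - i) b = t := by
  obtain ⟨s⟩ := exists_tSplit h.homEqNum
  obtain ⟨b, hb, hbt⟩ := (h.hard i hi).2 t ht.2
  have hbt' : lefP W X D (X.dim - i) b = t := hbt
  have hgr : s.eT b ∈ W.gr X i := kop_gr (RatOp.mem s.eT_mem) i b hb
  have h1 := lef_trans (D := D) h.divisor (X.dim - i) (x := s.eT b) (i := i) ⟨s.mem_T b, hgr⟩
  have h2 : lefP W X D (X.dim - i) (b - s.eT b) = 0 := by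
    have h3 : lefP W X D (X.dim - i) (b - s.eT b) = t - lefP W X D (X.dim - i) (s.eT b) := by
      rw [map_sub, hbt']
    have h4 : lefP W X D (X.dim - i) (b - s.eT b) ∈ transcendental W X := by
      rw [h3]
      exact Submodule.sub_mem _ ht.1 h1.1
    rw [← s.fix _ h4]
    exact eT_lef_sub s h.divisor _ b
  have h3 : b - s.eT b = 0 :=
    (h.hard i hi).1 _ (Submodule.sub_mem _ hb hgr) h2
  have h4 : b = s.eT b := sub_eq_zero.1 h3
  refine ⟨b, ⟨?_, hb⟩, hbt'⟩
  rw [h4]
  exact s.mem_T b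

/-- **The part of degree `i` of the transcendental cohomology is a piece.** -/
theorem isPiece_in (h : IsFull Φ X D) {i : ℕ} (hi : i ≤ X.dim) {P : W.K[X]} (hsq : Squarefree P)
    (hP : ∀ x ∈ transIn W X i, aeval (frobAll Φ X) P x = 0) :
    IsPiece Φ X (eI s i) P (((p : W.K) ^ Φ.e X) ^ i) ((X.dim - i : ℕ) : ℤ)
      (lefP W X D (X.dim - i)) := by
  have hpne : ((p : W.K) ^ Φ.e X) ≠ 0 := pow_ne_zero _ (cast_p_ne Φ)
  have hfq : fr Φ X (W.cl X D) = ((p : W.K) ^ Φ.e X) • W.cl X D := by
    have h1 : fr Φ X (W.cl X D) = ((p ^ Φ.e X : ℕ) : W.K) • W.cl X D := h.rational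
    rw [h1, Nat.cast_pow]
  have hmulfr : ∀ x y : W.H X, fr Φ X (x * y) = fr Φ X x * fr Φ X y :=
    fun x y => map_mul (W.map (Φ.Fr X)) x y
  have hlef : ∀ (n : ℕ) (x : W.H X), fr Φ X (lefP W X D n x) =
      (((p : W.K) ^ Φ.e X) ^ n) • lefP W X D n (fr Φ X x) := by
    intro n x
    induction n with
    | zero => rw [pow_zero, one_smul]; rfl
    | succ n ih =>
      have h1 : ∀ y, lefP W X D (n + 1) y = W.cl X D * lefP W X D n y := by
        intro y
        rw [lefP, pow_succ', Module.End.mul_apply]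
        rfl
      rw [h1, h1, hmulfr, hfq, ih, smul_mul_smul_comm, pow_succ']
  refine
    { mem := eI_mem s h i
      idem := eI_idem s i
      comm := eI_comm s (KOp.mapHom (Φ.Fr X)) i
      sqf := hsq
      poly := ?_
      tate := ?_
      θ_mem := lefP_mem h.divisor _
      c_ne := pow_ne_zero _ hpne
      θ_eq := ?_
      nondeg := ?_ }
  · apply LinearMap.ext
    intro x
    exact hP _ (eI_trans s i x)
  · intro φ h1 h2 h3
    obtain ⟨ψ, hψ', h4⟩ := h.tate i hi φ (fun x _ => by
      rw [← h2]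
      exact eI_trans s i _) (fun x _ => congrArg (fun F => F x) h3)
    have h5 : φ = ψ ∘ₗ eI s i := by
      apply LinearMap.ext
      intro x
      conv_lhs => rw [← h1]
      exact (h4 _ (eI_trans s i x)).symm
    rw [h5]
    exact KOp.cast (KOp.comp (cycOps_le X hψ') (eI_mem s h i)) (add_zero 0)
  · intro x y
    have h1 := fr_tr (Φ := Φ) (eI s i x * lefP W X D (X.dim - i) (eI s i y))
    rw [hmulfr, hlef, mul_smul_comm, map_smul, smul_eq_mul] at h1
    apply mul_left_cancel₀ (pow_ne_zero (X.dim - i) hpne)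
    rw [h1, ← mul_assoc, ← pow_add, show X.dim - i + i = X.dim by omega]
  · intro x hx
    have ha := eI_trans s i x
    have key : ∀ z, W.tr X (eI s i x * s.eT z) = 0 := by
      intro z
      refine gr_induction (W.isInternal X) (p := fun z => W.tr X (eI s i x * s.eT z) = 0) ?_ ?_ z
      · intro j z hz
        have hgr : s.eT z ∈ W.gr X j := kop_gr (RatOp.mem s.eT_mem) j z hz
        by_cases hj : j = 2 * X.dim - i
        · subst hj
          obtain ⟨b, hb, hbt⟩ := lef_surj h hi (t := s.eT z) ⟨s.mem_T z, hgr⟩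
          rw [← hbt]
          have h1 := hx b
          rw [eI_fix s hb] at h1
          exact h1
        · exact W.tr_eq_zero (W.mul_mem ha.2 hgr) (by omega)
      · intro x y hx hy
        rw [map_add, mul_add, map_add, hx, hy, add_zero]
    have h2 : eI s i x = s.eT (eI s i x) := (s.fix _ ha.1).symm
    rw [h2]
    apply s.nondeg
    intro y
    rw [← h2]
    exact key y

section Base

variable {L : Type v} [Field L] [Algebra W.K L]

lemma upW_comp {X Y Z : 𝒱.Obj} (φ : W.H X →ₗ[W.K] W.H Y) (ψ : W.H Y →ₗ[W.K] W.H Z) :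
    upW L (ψ ∘ₗ φ) = upW L ψ ∘ₗ upW L φ :=
  LinearMap.baseChange_comp (A := L) φ ψ

lemma upW_id (X : 𝒱.Obj) : upW L (LinearMap.id : W.H X →ₗ[W.K] W.H X) = LinearMap.id :=
  LinearMap.baseChange_id

lemma upW_sum {X Y : 𝒱.Obj} {ι : Type*} (t : Finset ι) (φ : ι → (W.H X →ₗ[W.K] W.H Y)) :
    upW L (∑ i ∈ t, φ i) = ∑ i ∈ t, upW L (φ i) := by
  classical
  induction t using Finset.induction_on with
  | empty =>
    rw [Finset.sum_empty, Finset.sum_empty]
    exact LinearMap.baseChange_zero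
  | insert a t ha ih =>
    rw [Finset.sum_insert ha, Finset.sum_insert ha, ← ih]
    exact LinearMap.baseChange_add _ _

lemma upW_add {X Y : 𝒱.Obj} (φ ψ : W.H X →ₗ[W.K] W.H Y) :
    upW L (φ + ψ) = upW L φ + upW L ψ := LinearMap.baseChange_add _ _

/-- **The identity of a variety with the conjectures B and D factors through its algebraic part and
the parts of degree at most the dimension of its transcendental part.** -/
theorem id_mem_full (h : IsFull Φ X D) {C : Mot (baseW W L) → Prop}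
    (hA : ∀ B : Mot (baseW W L), B.Alg → C B)
    (hp : ∀ i ≤ X.dim, upW L (eI s i) ∈ RetOp (baseW W L) C X X) :
    LinearMap.id ∈ RetOp (baseW W L) C X X := by
  obtain ⟨Λ, hΛ, hLam⟩ := lefschetzB_iff_rop.1 h.lefschetz
  have hΛK : Λ ∈ KOp W X X (-1) := KOp.ofRop hΛ
  have hLh : IsHom (W.gr X) 2 (LinearMap.mulLeft W.K (W.cl X D)) := by
    simpa using rop_opAlg.hom (rop_mulLeft (W := W) h.divisor)
  have hΛc : ∀ c : ℕ, Λ ^ c ∈ KOp W X X (-(c : ℤ)) := by
    intro c
    rw [← mem_KS_iff]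
    exact rop_opAlg.kspan.cast (rop_opAlg.kspan.pow (mem_KS_iff.2 hΛK) c) (by ring)
  have hall : ∀ i, upW L (eI s i) ∈ RetOp (baseW W L) C X X := by
    intro i
    by_cases hi : i ≤ X.dim
    · exact hp i hi
    by_cases hi2 : 2 * X.dim < i
    · have h0 : eI s i = 0 := by
        apply LinearMap.ext
        intro x
        have h1 : eI s i x ∈ W.gr X i := (eI_trans s i x).2
        rw [W.gr_eq_bot X i hi2, Submodule.mem_bot] at h1
        rw [h1, LinearMap.zero_apply]
      rw [h0]
      have h1 : upW L (0 : W.H X →ₗ[W.K] W.H X) = 0 := LinearMap.baseChange_zero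
      rw [h1]
      exact Submodule.zero_mem _
    · obtain ⟨c, hc⟩ : ∃ c, i = X.dim + c := ⟨i - X.dim, by omega⟩
      have hcn : c ≤ X.dim := by omega
      have e : eI s i = (lefP W X D c ∘ₗ eI s (X.dim - c)) ∘ₗ ((Λ ^ c) ∘ₗ eI s i) := by
        apply LinearMap.ext
        intro x
        rw [LinearMap.comp_apply, LinearMap.comp_apply, LinearMap.comp_apply]
        have h1 := eI_trans s i x
        obtain ⟨b, hb, hbt⟩ := lef_surj h (i := X.dim - c) (by omega) (t := eI s i x)
          (by rw [show 2 * X.dim - (X.dim - c) = i by omega]; exact h1)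
        rw [show X.dim - (X.dim - c) = c by omega] at hbt
        have h2 : (Λ ^ c) (eI s i x) = b := by
          rw [← hbt]
          exact lam_pow_L_pow hLh W_hbd h.hard hLam hcn hb.2
        rw [h2, eI_fix s hb, hbt]
      rw [e, upW_comp, upW_comp, upW_comp]
      exact RetOp.comp_right (RetOp.comp_left (hp _ (by omega))
        (upW_mem (lefP_mem h.divisor c)))
        (KOp.comp (upW_mem (hΛc c)) (upW_mem (eI_mem s h i)))
  have hsum : (LinearMap.id : W.H X →ₗ[W.K] W.H X) =
      ∑ j, s.eA j + ∑ i ∈ Finset.range (2 * X.dim + 1), eI s i := by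
    rw [← s.sum]
    congr 1
    apply LinearMap.ext
    intro x
    rw [LinearMap.sum_apply]
    have h1 := congrArg (fun F => F (s.eT x)) (sum_proj (W.isInternal X) (N := 2 * X.dim + 1) W_hbd)
    beta_reduce at h1
    rw [LinearMap.sum_apply, Module.End.one_apply] at h1
    exact h1.symm
  rw [← upW_id (L := L) X, hsum, upW_add, upW_sum, upW_sum]
  refine Submodule.add_mem _ (Submodule.sum_mem _ fun j _ => ?_)
    (Submodule.sum_mem _ fun i _ => hall i)
  obtain ⟨m, i, hAlg⟩ := s.alg_up L j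
  exact RetOp.self (B := ⟨X, upW L (s.eA j), m, i⟩) (hA _ hAlg)

end Base

end Pool.Agent.Helper13ER
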